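import Pool.Agent.Helper87.MC.Goals

/-!
# The fractional lemma for minimal complements
-/

namespace Pool.Agent.Helper52.MC

open Finset Pool.Agent.Helper87.MC

open Classical in
/-- Indicator of `E`. -/
noncomputable def ind {G : Type} (E : Finset G) (x : G) : ℝ := if x ∈ E then 1 else 0

section
variable {G : Type} [AddCommGroup G] [Fintype G]

theorem ind_nonneg (E : Finset G) (x : G) : 0 ≤ ind E x := by
  unfold ind; split_ifs <;> norm_num

theorem ind_le_one (E : Finset G) (x : G) : ind E x ≤ 1 := by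
  unfold ind; split_ifs <;> norm_num

open Classical in
/-- `E ∩ (E - w)`. -/
noncomputable def shr (E : Finset G) (w : G) : Finset G := E.filter (fun x => x + w ∈ E)

theorem card_shr (E : Finset G) (w : G) : (shr E w).card = rr E w := by
  unfold shr rr
  congr

theorem ind_shr (E : Finset G) (w x : G) : ind (shr E w) x = ind E x * ind E (x + w) := by
  unfold ind shr
  by_cases h1 : x ∈ E <;> by_cases h2 : x + w ∈ E <;> simp [h1, h2]

theorem card_eq (E : Finset G) : (E.card : ℝ) = ∑ x, ind E x := by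
  unfold ind
  simp

theorem rr_eq (E : Finset G) (w : G) : (rr E w : ℝ) = ∑ x, ind E x * ind E (x + w) := by
  rw [← card_shr, card_eq]
  simp only [ind_shr]

omit [Fintype G] in
theorem shr_subset (E : Finset G) (w : G) : shr E w ⊆ E := by
  classical
  intro x hx
  unfold shr at hx
  exact (Finset.mem_filter.1 hx).1

theorem rr_le (E : Finset G) (w : G) : (rr E w : ℝ) ≤ E.card := by
  rw [← card_shr]
  exact_mod_cast Finset.card_le_card (shr_subset E w)

/-- The main inequality for a set `S` with large relative overlaps. -/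
theorem core (ν : G → ℝ) (hν : ∀ w, 0 ≤ ν w) (E : Finset G) (hE : E.Nonempty)
    (hw : ∀ z, z ∉ E → (∑ w : G, ν w * ind E (z - w)) ≤ 1) (S : Finset G)
    (hA : 0 < ∑ w ∈ S, ν w * ((rr E w : ℝ) / E.card))
    (h1 : ∀ w ∈ S, (∑ w ∈ S, ν w * ((rr E w : ℝ) / E.card))
      ≤ 2 * (∑ w ∈ S, ν w) * ((rr E w : ℝ) / E.card))
    (h2 : ∀ w ∈ S, (∑ u ∈ S, ν u * ((rr (shr E w) u : ℝ) / (shr E w).card)) ^ 2
      ≤ 4 * (∑ w ∈ S, ν w) * Real.log (shr E w).card) :
    (∑ w ∈ S, ν w * ((rr E w : ℝ) / E.card)) ^ 2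
      ≤ 4 * (∑ w ∈ S, ν w) * Real.log E.card := by
  set A := ∑ w ∈ S, ν w * ((rr E w : ℝ) / E.card) with hAdef
  set M := ∑ w ∈ S, ν w with hMdef
  set n : ℝ := (E.card : ℝ) with hn
  have hn0 : 0 < n := by
    rw [hn]; exact_mod_cast hE.card_pos
  have hs1 : ∀ w, (rr E w : ℝ) / n ≤ 1 := fun w => (div_le_one hn0).2 (rr_le E w)
  have hs0 : ∀ w, 0 ≤ (rr E w : ℝ) / n := fun w => by positivity
  have hAM : A ≤ M := Finset.sum_le_sum fun w _ => by
    calc ν w * ((rr E w : ℝ) / n) ≤ ν w * 1 := mul_le_mul_of_nonneg_left (hs1 w) (hν w)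
      _ = ν w := mul_one _
  have hM : 0 < M := lt_of_lt_of_le hA hAM
  have hspos : ∀ w ∈ S, 0 < (rr E w : ℝ) / n := by
    intro w hw'
    by_contra hneg
    have h0 : (rr E w : ℝ) / n = 0 := le_antisymm (not_lt.1 hneg) (hs0 w)
    have := h1 w hw'
    rw [h0, mul_zero] at this
    linarith
  -- the values `a w`
  let a : G → ℝ := fun w => ∑ u ∈ S, ν u * ((rr (shr E w) u : ℝ) / (shr E w).card)
  -- Step 3
  let o : G → ℝ := fun x => ∑ w ∈ S, ν w * ind E (x + w)
  let T : G → ℝ := fun z => ∑ w ∈ S, ν w * ind E (z - w)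
  have hT0 : ∀ z, 0 ≤ T z := fun z =>
    Finset.sum_nonneg fun w _ => mul_nonneg (hν w) (ind_nonneg _ _)
  have hT1 : ∀ z, z ∉ E → T z ≤ 1 := fun z hz =>
    (Finset.sum_le_sum_of_subset_of_nonneg (Finset.subset_univ S)
      (fun w _ _ => mul_nonneg (hν w) (ind_nonneg _ _))).trans (hw z hz)
  have hsumo : ∑ x, ind E x * o x = n * A := by
    have : ∀ x, ind E x * o x = ∑ w ∈ S, ν w * (ind E x * ind E (x + w)) := by
      intro x
      simp only [o, Finset.mul_sum]
      exact Finset.sum_congr rfl fun w _ => by ring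
    simp only [this]
    rw [Finset.sum_comm, hAdef, Finset.mul_sum]
    refine Finset.sum_congr rfl fun w _ => ?_
    rw [← Finset.mul_sum, ← rr_eq]
    field_simp
  have hCS : n * A ^ 2 ≤ ∑ x, ind E x * o x ^ 2 := by
    have hcs := Finset.sum_mul_sq_le_sq_mul_sq Finset.univ (fun x => ind E x)
      (fun x => ind E x * o x)
    have hii : ∀ x, ind E x * ind E x = ind E x := by
      intro x; unfold ind; split_ifs <;> norm_num
    have e1 : ∑ x, ind E x * (ind E x * o x) = n * A := by
      rw [← hsumo]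
      exact Finset.sum_congr rfl fun x _ => by rw [← mul_assoc, hii]
    have e2 : ∑ x, ind E x ^ 2 = n := by
      rw [hn, card_eq]
      exact Finset.sum_congr rfl fun x _ => by rw [pow_two, hii]
    have e3 : ∑ x, (ind E x * o x) ^ 2 = ∑ x, ind E x * o x ^ 2 :=
      Finset.sum_congr rfl fun x _ => by rw [mul_pow, pow_two, hii]
    rw [e1, e2, e3] at hcs
    have : n * (n * A ^ 2) ≤ n * ∑ x, ind E x * o x ^ 2 := by nlinarith [hcs]
    exact le_of_mul_le_mul_left this hn0
  have hTsum : ∑ z, (1 - ind E z) * T z ^ 2 ≤ n * (M - A) := by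
    have hle : ∑ z, (1 - ind E z) * T z ^ 2 ≤ ∑ z, (1 - ind E z) * T z := by
      refine Finset.sum_le_sum fun z _ => ?_
      by_cases hz : z ∈ E
      · have : ind E z = 1 := by unfold ind; simp [hz]
        rw [this]; simp
      · have : ind E z = 0 := by unfold ind; simp [hz]
        rw [this]
        have h3 := hT1 z hz
        have h4 := hT0 z
        nlinarith
    refine hle.trans (le_of_eq ?_)
    have : ∀ z, (1 - ind E z) * T z = ∑ w ∈ S, ν w * ((1 - ind E z) * ind E (z - w)) := by
      intro x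
      simp only [T, Finset.mul_sum]
      exact Finset.sum_congr rfl fun w _ => by ring
    simp only [this]
    rw [Finset.sum_comm]
    have h5 : ∀ w, ∑ z, (1 - ind E z) * ind E (z - w) = n - rr E w := by
      intro w
      have : ∑ z, (1 - ind E z) * ind E (z - w) = ∑ x, (1 - ind E (x + w)) * ind E x := by
        rw [← Equiv.sum_comp (Equiv.addRight w)]
        simp
      rw [this, rr_eq, hn, card_eq, ← Finset.sum_sub_distrib]
      exact Finset.sum_congr rfl fun x _ => by ring
    have h6 : ∀ w, ∑ z, ν w * ((1 - ind E z) * ind E (z - w)) = ν w * (n - rr E w) := by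
      intro w; rw [← Finset.mul_sum, h5]
    simp only [h6]
    rw [hMdef, hAdef, ← Finset.sum_sub_distrib, Finset.mul_sum]
    refine Finset.sum_congr rfl fun w _ => ?_
    field_simp
  have hquad : ∑ x, ind E x * o x ^ 2 - ∑ z, (1 - ind E z) * T z ^ 2
      ≤ ∑ w ∈ S, ∑ u ∈ S, ν w * (ν u * (rr (shr E w) u : ℝ)) := by
    have q1 : ∑ x, ind E x * o x ^ 2
        = ∑ w ∈ S, ∑ u ∈ S, ν w * (ν u * ∑ x, ind E x * ind E (x + w) * ind E (x + u)) := by
      have : ∀ x, ind E x * o x ^ 2
          = ∑ w ∈ S, ∑ u ∈ S, ν w * (ν u * (ind E x * ind E (x + w) * ind E (x + u))) := by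
        intro x
        simp only [o]
        rw [pow_two, Finset.sum_mul_sum, Finset.mul_sum]
        refine Finset.sum_congr rfl fun w _ => ?_
        rw [Finset.mul_sum]
        exact Finset.sum_congr rfl fun u _ => by ring
      simp only [this]
      rw [Finset.sum_comm]
      refine Finset.sum_congr rfl fun w _ => ?_
      rw [Finset.sum_comm]
      refine Finset.sum_congr rfl fun u _ => ?_
      rw [← Finset.mul_sum, ← Finset.mul_sum]
    have q2 : ∑ z, (1 - ind E z) * T z ^ 2
        = ∑ w ∈ S, ∑ u ∈ S, ν w * (ν u *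
            ∑ x, (1 - ind E (x + u + w)) * ind E (x + w) * ind E (x + u)) := by
      have : ∀ z, (1 - ind E z) * T z ^ 2
          = ∑ w ∈ S, ∑ u ∈ S, ν w * (ν u * ((1 - ind E z) * ind E (z - u) * ind E (z - w))) := by
        intro z
        simp only [T]
        rw [pow_two, Finset.sum_mul_sum, Finset.mul_sum]
        refine Finset.sum_congr rfl fun w _ => ?_
        rw [Finset.mul_sum]
        exact Finset.sum_congr rfl fun u _ => by ring
      simp only [this]
      rw [Finset.sum_comm]
      refine Finset.sum_congr rfl fun w _ => ?_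
      rw [Finset.sum_comm]
      refine Finset.sum_congr rfl fun u _ => ?_
      rw [← Finset.mul_sum, ← Finset.mul_sum]
      congr 2
      rw [← Equiv.sum_comp (Equiv.addRight (u + w))]
      refine Finset.sum_congr rfl fun x _ => ?_
      have e1 : (Equiv.addRight (u + w)) x = x + u + w := by simp [add_assoc]
      rw [e1]
      have e2 : x + u + w - u = x + w := by abel
      have e3 : x + u + w - w = x + u := by abel
      rw [e2, e3]
    rw [q1, q2, ← Finset.sum_sub_distrib]
    refine Finset.sum_le_sum fun w _ => ?_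
    rw [← Finset.sum_sub_distrib]
    refine Finset.sum_le_sum fun u _ => ?_
    rw [← mul_sub, ← mul_sub]
    refine mul_le_mul_of_nonneg_left (mul_le_mul_of_nonneg_left ?_ (hν u)) (hν w)
    rw [rr_eq, ← Finset.sum_sub_distrib]
    refine Finset.sum_le_sum fun x _ => ?_
    rw [ind_shr, ind_shr]
    have i0 := ind_nonneg E x
    have i1 := ind_le_one E x
    have j0 := ind_nonneg E (x + w)
    have k0 := ind_nonneg E (x + u)
    have l1 := ind_le_one E (x + u + w)
    have hjk : 0 ≤ ind E (x + w) * ind E (x + u) * (1 - ind E (x + u + w)) :=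
      mul_nonneg (mul_nonneg j0 k0) (by linarith)
    nlinarith [mul_nonneg hjk (by linarith : (0:ℝ) ≤ 1 - ind E x)]
  have hstep : A ^ 2 - (M - A) ≤ ∑ w ∈ S, ν w * ((rr E w : ℝ) / n) * a w := by
    have e1 : ∑ w ∈ S, ∑ u ∈ S, ν w * (ν u * (rr (shr E w) u : ℝ))
        = n * ∑ w ∈ S, ν w * ((rr E w : ℝ) / n) * a w := by
      rw [Finset.mul_sum]
      refine Finset.sum_congr rfl fun w hwS => ?_
      have hc : ((shr E w).card : ℝ) = rr E w := by rw [card_shr]
      have hpos : 0 < (rr E w : ℝ) := by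
        have := hspos w hwS
        by_contra hneg
        have h0 : (rr E w : ℝ) = 0 := le_antisymm (not_lt.1 hneg) (by positivity)
        rw [h0] at this
        simp at this
      simp only [a]
      rw [hc, Finset.mul_sum, Finset.mul_sum]
      refine Finset.sum_congr rfl fun u _ => ?_
      field_simp
    rw [e1] at hquad
    have : n * (A ^ 2 - (M - A)) ≤ n * ∑ w ∈ S, ν w * ((rr E w : ℝ) / n) * a w := by
      nlinarith [hquad, hCS, hTsum]
    exact le_of_mul_le_mul_left this hn0
  -- Step 4
  have hlog : ∀ w ∈ S, a w ^ 2 / (4 * M) + (1 - (rr E w : ℝ) / n) ≤ Real.log n := by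
    intro w hwS
    have hp := hspos w hwS
    have hpos : 0 < (rr E w : ℝ) := by
      have := mul_pos hp hn0
      rwa [div_mul_cancel₀ _ hn0.ne'] at this
    have hc : ((shr E w).card : ℝ) = rr E w := by rw [card_shr]
    have h3 := h2 w hwS
    rw [hc] at h3
    have h4 : a w ^ 2 ≤ 4 * M * Real.log (rr E w) := by
      have : a w = ∑ u ∈ S, ν u * ((rr (shr E w) u : ℝ) / (rr E w : ℝ)) := by
        simp only [a, hc]
      rw [this]; exact h3
    have h5 : a w ^ 2 / (4 * M) ≤ Real.log (rr E w) := by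
      rw [div_le_iff₀ (by positivity)]
      linarith
    have h6 : Real.log ((rr E w : ℝ) / n) ≤ (rr E w : ℝ) / n - 1 :=
      Real.log_le_sub_one_of_pos hp
    rw [Real.log_div hpos.ne' hn0.ne'] at h6
    linarith
  -- average with weights `ν w s w`
  have hsum1 : ∑ w ∈ S, ν w * ((rr E w : ℝ) / n) * (a w ^ 2 / (4 * M) + (1 - (rr E w : ℝ) / n))
      ≤ A * Real.log n := by
    rw [hAdef, Finset.sum_mul]
    refine Finset.sum_le_sum fun w hwS => ?_
    exact mul_le_mul_of_nonneg_left (hlog w hwS) (mul_nonneg (hν w) (hs0 w))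
  set B := ∑ w ∈ S, ν w * ((rr E w : ℝ) / n) * a w with hBdef
  have hB2 : B ^ 2 ≤ A * ∑ w ∈ S, ν w * ((rr E w : ℝ) / n) * a w ^ 2 := by
    have := Finset.sum_sq_le_sum_mul_sum_of_sq_le_mul S (r := fun w => ν w * ((rr E w : ℝ) / n) * a w)
      (f := fun w => ν w * ((rr E w : ℝ) / n)) (g := fun w => ν w * ((rr E w : ℝ) / n) * a w ^ 2)
      (fun w _ => mul_nonneg (hν w) (hs0 w))
      (fun w _ => mul_nonneg (mul_nonneg (hν w) (hs0 w)) (sq_nonneg _))
      (fun w _ => le_of_eq (by ring))
    simpa [hAdef, hBdef] using this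
  have hsplit : ∑ w ∈ S, ν w * ((rr E w : ℝ) / n) * (a w ^ 2 / (4 * M) + (1 - (rr E w : ℝ) / n))
      = (∑ w ∈ S, ν w * ((rr E w : ℝ) / n) * a w ^ 2) / (4 * M)
        + ∑ w ∈ S, ν w * (1 - (rr E w : ℝ) / n) * ((rr E w : ℝ) / n) := by
    rw [Finset.sum_div, ← Finset.sum_add_distrib]
    exact Finset.sum_congr rfl fun w _ => by ring
  have hlast : (M - A) * (A / (2 * M))
      ≤ ∑ w ∈ S, ν w * (1 - (rr E w : ℝ) / n) * ((rr E w : ℝ) / n) := by
    have : M - A = ∑ w ∈ S, ν w * (1 - (rr E w : ℝ) / n) := by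
      rw [hMdef, hAdef, ← Finset.sum_sub_distrib]
      exact Finset.sum_congr rfl fun w _ => by ring
    rw [this, Finset.sum_mul]
    refine Finset.sum_le_sum fun w hwS => ?_
    refine mul_le_mul_of_nonneg_left ?_ (mul_nonneg (hν w) (by linarith [hs1 w]))
    rw [div_le_iff₀ (by positivity)]
    have := h1 w hwS
    linarith
  -- final computation
  set Q := ∑ w ∈ S, ν w * ((rr E w : ℝ) / n) * a w ^ 2 with hQdef
  have k1 : Q / (4 * M) + (M - A) * (A / (2 * M)) ≤ A * Real.log n := by
    rw [hsplit] at hsum1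
    linarith
  have k2 : Q + 2 * A * (M - A) ≤ 4 * M * (A * Real.log n) := by
    have : (Q / (4 * M) + (M - A) * (A / (2 * M))) * (4 * M) = Q + 2 * A * (M - A) := by
      field_simp
      ring
    rw [← this]
    have h4M : 0 ≤ 4 * M := by positivity
    nlinarith [mul_le_mul_of_nonneg_right k1 h4M]
  -- `B² ≤ A Q`, `B ≥ A² - (M - A)`; so `A Q ≥ B² ≥ 2 B A² - A⁴`
  have k3 : 2 * B * A ^ 2 - A ^ 4 ≤ A * Q := by nlinarith [hB2, sq_nonneg (B - A ^ 2)]
  have k4 : 2 * B * A - A ^ 3 ≤ Q := by
    have : A * (2 * B * A - A ^ 3) ≤ A * Q := by nlinarith [k3]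
    exact le_of_mul_le_mul_left this hA
  have k5 : A ^ 3 - 2 * A * (M - A) ≤ Q := by nlinarith [k4, hstep, hA]
  have k6 : A * A ^ 2 ≤ A * (4 * M * Real.log n) := by nlinarith [k5, k2]
  exact le_of_mul_le_mul_left k6 hA

end

open Classical in
theorem lemA : GLemA := by
  intro G _ _ ν hν h0
  suffices H : ∀ N : ℕ, ∀ E : Finset G, E.card = N → E.Nonempty → CosetFree (E : Set G) →
      (∀ z, z ∉ E → (∑ w : G, ν w * ind E (z - w)) ≤ 1) →
      ∀ S : Finset G, (∑ w ∈ S, ν w * ((rr E w : ℝ) / E.card)) ^ 2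
        ≤ 4 * (∑ w ∈ S, ν w) * Real.log E.card by
    intro E hE hC hz S
    refine H E.card E rfl hE hC (fun z hz' => ?_) S
    refine le_trans (le_of_eq ?_) (hz z hz')
    refine Finset.sum_congr rfl fun w _ => ?_
    unfold ind
    split_ifs <;> simp
  intro N
  induction N using Nat.strong_induction_on with
  | _ N ih =>
  intro E hN hE hC hz
  set A : Finset G → ℝ := fun S => ∑ w ∈ S, ν w * ((rr E w : ℝ) / E.card) with hA
  set M : Finset G → ℝ := fun S => ∑ w ∈ S, ν w with hM
  have hn0 : (0:ℝ) < E.card := by exact_mod_cast hE.card_pos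
  have hlog0 : 0 ≤ Real.log E.card := Real.log_nonneg (by exact_mod_cast hE.card_pos)
  let U : Finset G := Finset.univ.filter (fun w => 0 < ν w)
  obtain ⟨S0, hS0, hmax⟩ := Finset.exists_max_image U.powerset (fun S => A S ^ 2 / M S)
    ⟨∅, by simp⟩
  have hS0U : ∀ w ∈ S0, 0 < ν w := fun w hw => by
    have := (Finset.mem_powerset.1 hS0) hw
    simpa [U] using this
  have hA0 : ∀ S, 0 ≤ A S := fun S => Finset.sum_nonneg fun w _ =>
    mul_nonneg (hν w) (by positivity)
  have hM0 : ∀ S, 0 ≤ M S := fun S => Finset.sum_nonneg fun w _ => hν w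
  have hAM : ∀ S, A S ≤ M S := fun S => Finset.sum_le_sum fun w _ => by
    calc ν w * ((rr E w : ℝ) / E.card) ≤ ν w * 1 :=
          mul_le_mul_of_nonneg_left ((div_le_one hn0).2 (rr_le E w)) (hν w)
      _ = ν w := mul_one _
  have key : A S0 ^ 2 ≤ 4 * M S0 * Real.log E.card := by
    rcases (hA0 S0).eq_or_lt with hz0 | hpos
    · rw [← hz0]
      have := mul_nonneg (mul_nonneg (by norm_num : (0:ℝ) ≤ 4) (hM0 S0)) hlog0
      simpa using this
    have hMpos : 0 < M S0 := lt_of_lt_of_le hpos (hAM S0)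
    have h1 : ∀ w ∈ S0, A S0 ≤ 2 * M S0 * ((rr E w : ℝ) / E.card) := by
      intro w hw
      set s : ℝ := (rr E w : ℝ) / E.card with hs
      have hs0 : 0 ≤ s := by rw [hs]; positivity
      have eA : A (S0.erase w) = A S0 - ν w * s := by
        have := Finset.add_sum_erase S0 (fun w => ν w * ((rr E w : ℝ) / E.card)) hw
        simp only [hA]
        linarith
      have eM : M (S0.erase w) = M S0 - ν w := by
        have := Finset.add_sum_erase S0 (fun w => ν w) hw
        simp only [hM]
        linarith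
      have hm := hmax (S0.erase w) (Finset.mem_powerset.2
        ((Finset.erase_subset _ _).trans (Finset.mem_powerset.1 hS0)))
      have hineq : A (S0.erase w) ^ 2 * M S0 ≤ A S0 ^ 2 * M (S0.erase w) := by
        rcases (hM0 (S0.erase w)).eq_or_lt with hz1 | hp1
        · have : A (S0.erase w) = 0 :=
            le_antisymm (by rw [hz1]; exact hAM _) (hA0 _)
          rw [this, ← hz1]; simp
        · rw [div_le_div_iff₀ hp1 hMpos] at hm
          exact hm
      rw [eA, eM] at hineq
      have hνw := hS0U w hw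
      have h3 : ν w * (A S0 ^ 2) ≤ ν w * (2 * A S0 * s * M S0) := by
        have : 0 ≤ (ν w) ^ 2 * s ^ 2 * M S0 := by positivity
        nlinarith [hineq]
      have h4 := le_of_mul_le_mul_left h3 hνw
      have h5 : A S0 * A S0 ≤ A S0 * (2 * M S0 * s) := by nlinarith [h4]
      exact le_of_mul_le_mul_left h5 hpos
    refine core ν hν E hE hz S0 hpos h1 ?_
    intro w hw
    have hs : 0 < (rr E w : ℝ) := by
      by_contra hneg
      have h0' : (rr E w : ℝ) = 0 := le_antisymm (not_lt.1 hneg) (by positivity)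
      have := h1 w hw
      rw [h0'] at this
      simp at this
      linarith
    have hw0 : w ≠ 0 := by
      rintro rfl
      exact absurd (hS0U 0 hw) (by rw [h0]; exact lt_irrefl _)
    have hsub : shr E w ⊆ E := shr_subset E w
    have hlt : (shr E w).card < E.card := by
      refine lt_of_le_of_ne (Finset.card_le_card hsub) ?_
      intro heq
      have hEq : shr E w = E := Finset.eq_of_subset_of_card_le hsub heq.ge
      obtain ⟨x, hx⟩ := hE
      obtain ⟨j, hj⟩ := hC x (by exact_mod_cast hx) w hw0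
      apply hj
      have : ∀ j : ℕ, x + j • w ∈ E := by
        intro j
        induction j with
        | zero => simpa using hx
        | succ j ihj =>
          rw [← hEq] at ihj
          have := (Finset.mem_filter.1 ihj).2
          rwa [succ_nsmul, ← add_assoc]
      exact_mod_cast this j
    have hne : (shr E w).Nonempty := by
      rw [← Finset.card_pos, card_shr]
      exact_mod_cast hs
    refine ih (shr E w).card (by rw [← hN]; exact hlt) (shr E w) rfl hne ?_ ?_ S0
    · intro x hx u hu
      obtain ⟨j, hj⟩ := hC x (by exact_mod_cast hsub (by exact_mod_cast hx)) u hu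
      refine ⟨j, fun hj' => hj ?_⟩
      exact_mod_cast hsub (by exact_mod_cast hj')
    · intro z hzE
      by_cases hzE' : z ∈ E
      · have hzw : z + w ∉ E := fun h => hzE (Finset.mem_filter.2 ⟨hzE', h⟩)
        refine le_trans (Finset.sum_le_sum fun u _ => ?_) (hz (z + w) hzw)
        refine mul_le_mul_of_nonneg_left ?_ (hν u)
        rw [ind_shr]
        have e : z - u + w = z + w - u := by abel
        rw [e]
        calc ind E (z - u) * ind E (z + w - u) ≤ 1 * ind E (z + w - u) :=
              mul_le_mul_of_nonneg_right (ind_le_one _ _) (ind_nonneg _ _)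
          _ = _ := one_mul _
      · refine le_trans (Finset.sum_le_sum fun u _ => ?_) (hz z hzE')
        refine mul_le_mul_of_nonneg_left ?_ (hν u)
        rw [ind_shr]
        calc ind E (z - u) * ind E (z - u + w) ≤ ind E (z - u) * 1 :=
              mul_le_mul_of_nonneg_left (ind_le_one _ _) (ind_nonneg _ _)
          _ = _ := mul_one _
  intro S
  let S1 := S.filter (fun w => 0 < ν w)
  have eA : A S = A S1 := by
    simp only [hA, S1]
    rw [Finset.sum_filter]
    refine Finset.sum_congr rfl fun w _ => ?_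
    split_ifs with h
    · rfl
    · have : ν w = 0 := le_antisymm (not_lt.1 h) (hν w)
      rw [this, zero_mul]
  have eM : M S = M S1 := by
    simp only [hM, S1]
    rw [Finset.sum_filter]
    refine Finset.sum_congr rfl fun w _ => ?_
    split_ifs with h
    · rfl
    · exact le_antisymm (not_lt.1 h) (hν w)
  change A S ^ 2 ≤ 4 * M S * Real.log E.card
  rw [eA, eM]
  have hm := hmax S1 (Finset.mem_powerset.2 (fun w hw => by
    simp only [U, Finset.mem_filter, Finset.mem_univ, true_and]
    exact (Finset.mem_filter.1 hw).2))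
  rcases (hM0 S1).eq_or_lt with hz1 | hp1
  · have : A S1 = 0 := le_antisymm (by rw [hz1]; exact hAM _) (hA0 _)
    rw [this, ← hz1]; simp
  · have hJ : A S0 ^ 2 / M S0 ≤ 4 * Real.log E.card := by
      rcases (hM0 S0).eq_or_lt with hz0 | hp0
      · rw [← hz0, div_zero]; positivity
      · rw [div_le_iff₀ hp0]; linarith
    have h6 := hm.trans hJ
    rw [div_le_iff₀ hp1] at h6
    linarith

end Pool.Agent.Helper52.MC
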