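import Pool.Agent.Helper87.MC.Goals

/-!
# The law of differences of independent uniform points
Averaging over one coordinate.
-/

namespace Pool.Agent.Helper52.MC

open Finset Pool.Agent.Helper87.MC

open Classical in
/-- Averaging over the coordinate `j`. -/
theorem avg {G : Type} [AddCommGroup G] [Fintype G] {m : ℕ} (j : Fin m)
    (Q : (Fin m → G) → Prop) (c : (Fin m → G) → G)
    (hQ : ∀ ξ a, Q (Function.update ξ j a) ↔ Q ξ)
    (hc : ∀ ξ a, c (Function.update ξ j a) = c ξ) (P : Finset G) :
    ((univ : Finset (Fin m → G)).filter (fun ξ => Q ξ ∧ ξ j - c ξ ∈ P)).card * Fintype.card G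
      = P.card * ((univ : Finset (Fin m → G)).filter (fun ξ => Q ξ)).card := by
  rw [← Finset.card_univ (α := G), ← Finset.card_product, ← Finset.card_product]
  refine Finset.card_nbij' (fun p => (p.1 j - c p.1, Function.update p.1 j p.2))
    (fun q => (Function.update q.2 j (q.1 + c q.2), q.2 j)) ?_ ?_ ?_ ?_
  · rintro ⟨ξ, b⟩ h
    simp only [coe_product, coe_filter, mem_univ, true_and, coe_univ, Set.mem_prod,
      Set.mem_setOf_eq, Set.mem_univ, and_true] at h
    simp only [coe_product, coe_filter, mem_univ, true_and, Set.mem_prod, Set.mem_setOf_eq]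
    exact ⟨h.2, (hQ _ _).2 h.1⟩
  · rintro ⟨p, η⟩ h
    simp only [coe_product, coe_filter, mem_univ, true_and, Set.mem_prod, Set.mem_setOf_eq] at h
    simp only [coe_product, coe_filter, mem_univ, true_and, coe_univ, Set.mem_prod,
      Set.mem_setOf_eq, Set.mem_univ, and_true]
    refine ⟨(hQ _ _).2 h.2, ?_⟩
    rw [hc]
    simpa using h.1
  · rintro ⟨ξ, b⟩ _
    simp [hc]
  · rintro ⟨p, η⟩ _
    simp [hc]

theorem card_neg' {G : Type} [AddCommGroup G] [Fintype G] [DecidableEq G] (P : Finset G) :
    (P.image (fun x => -x)).card = P.card :=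
  Finset.card_image_of_injective _ neg_injective

open Classical in
/-- The same for `c ξ - ξ j`. -/
theorem avg' {G : Type} [AddCommGroup G] [Fintype G] {m : ℕ} (j : Fin m)
    (Q : (Fin m → G) → Prop) (c : (Fin m → G) → G)
    (hQ : ∀ ξ a, Q (Function.update ξ j a) ↔ Q ξ)
    (hc : ∀ ξ a, c (Function.update ξ j a) = c ξ) (P : Finset G) :
    ((univ : Finset (Fin m → G)).filter (fun ξ => Q ξ ∧ c ξ - ξ j ∈ P)).card * Fintype.card G
      = P.card * ((univ : Finset (Fin m → G)).filter (fun ξ => Q ξ)).card := by
  rw [← card_neg' P, ← avg j Q c hQ hc]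
  congr 2
  ext ξ
  simp only [mem_filter, mem_univ, true_and, mem_image]
  refine and_congr_right fun _ => ⟨fun h => ⟨_, h, by abel⟩, ?_⟩
  rintro ⟨x, hx, h⟩
  have : c ξ - ξ j = x := by
    rw [← neg_inj, h]; abel
  rwa [this]

theorem pair : GPair := by
  classical
  intro G _ _ m i i' hii P
  have h := avg i (fun _ => True) (fun ξ => ξ i') (by simp)
    (by intro ξ a; simp [Function.update_of_ne hii.symm]) P
  simp only [true_and, filter_true, card_univ, Fintype.card_fun, Fintype.card_fin] at h
  convert h

theorem pair2 : GPair2 := by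
  classical
  intro G _ _ m i i' j j' hii hjj h1 h2 P
  have hp := pair G m i i' hii P
  have key : ((univ : Finset (Fin m → G)).filter
      (fun ξ => ξ i - ξ i' ∈ P ∧ ξ j - ξ j' ∈ P)).card * Fintype.card G
      = P.card * ((univ : Finset (Fin m → G)).filter (fun ξ => ξ i - ξ i' ∈ P)).card := by
    by_cases hj : j ≠ i ∧ j ≠ i'
    · have h := avg j (fun ξ => ξ i - ξ i' ∈ P) (fun ξ => ξ j')
        (by intro ξ a; simp [Function.update_of_ne hj.1.symm, Function.update_of_ne hj.2.symm])
        (by intro ξ a; simp [Function.update_of_ne hjj.symm]) P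
      convert h
    · have hj' : j' ≠ i ∧ j' ≠ i' := by
        by_cases e : j = i
        · subst e
          exact ⟨hjj.symm, fun e' => h1 ⟨rfl, e'.symm⟩⟩
        · have e2 : j = i' := by
            by_contra e2
            exact hj ⟨e, e2⟩
          subst e2
          exact ⟨fun e' => h2 ⟨e'.symm, rfl⟩, hjj.symm⟩
      have h := avg' j' (fun ξ => ξ i - ξ i' ∈ P) (fun ξ => ξ j)
        (by intro ξ a; simp [Function.update_of_ne hj'.1.symm, Function.update_of_ne hj'.2.symm])
        (by intro ξ a; simp [Function.update_of_ne hjj]) P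
      convert h
  have hp' : ((univ : Finset (Fin m → G)).filter (fun ξ => ξ i - ξ i' ∈ P)).card
      * Fintype.card G = P.card * Fintype.card G ^ m := by
    convert hp
  have : ((univ : Finset (Fin m → G)).filter
      (fun ξ => ξ i - ξ i' ∈ P ∧ ξ j - ξ j' ∈ P)).card * Fintype.card G ^ 2
      = P.card ^ 2 * Fintype.card G ^ m := by
    rw [pow_two, ← mul_assoc, key, mul_assoc, hp', pow_two, mul_assoc]
  convert this

end Pool.Agent.Helper52.MC
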